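import Mathlib

/-! MP_9c2350_lc: explicit colour vector with positive Hurwitz product.
Exact statements of the parts (Mathlib only). -/

namespace Pool.Agent.X158.HZ

open Finset Matrix

/-- Walks in the coloured digraph `E`: `Wk E i j c V` = walk from `i` to `j`, colour counts `c`,
set of visited vertices `V`. -/
inductive Wk {n m : ℕ} (E : Fin m → Fin n → Fin n → Prop) :
    Fin n → Fin n → (Fin m → ℕ) → Finset (Fin n) → Prop
  | nil (i : Fin n) : Wk E i i 0 {i}
  | cons {i j l : Fin n} {k : Fin m} {c : Fin m → ℕ} {V : Finset (Fin n)} :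
      E k i j → Wk E j l c V → Wk E i l (c + Pi.single k 1) (insert i V)

/-- The Hurwitz product. -/
noncomputable def hur {n m : ℕ} (A : Fin m → Matrix (Fin n) (Fin n) ℚ) (α : Fin m → ℕ) :
    Matrix (Fin n) (Fin n) ℚ :=
  ∑ w ∈ (univ : Finset (Fin (∑ k, α k) → Fin m)).filter
      (fun w => ∀ k, (univ.filter (fun t => w t = k)).card = α k),
    (List.ofFn (fun t => A (w t))).prod

/-- PART HZ_BR (15 min). Proof: expand the product of matrices along a word: for a word (list) `w`
and nonneg matrices, `(w.map A).prod i j > 0` iff there is a walk reading exactly the word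
(induction on the list, `Matrix.mul_apply`, `Finset.sum_pos'`). A positive sum of nonneg terms
has a positive term; conversely turn a walk into a word (list `w` with `w.count k = α k`), and
the length of the list is `∑ α k`. -/
def S_BR : Prop := ∀ (n m : ℕ) (A : Fin m → Matrix (Fin n) (Fin n) ℚ),
  (∀ k i j, 0 ≤ A k i j) → ∀ (α : Fin m → ℕ) (i j : Fin n),
  0 < hur A α i j ↔ ∃ V, Wk (fun k i j => 0 < A k i j) i j α V

/-- PART HZ_LAT (20 min). A finite set `V` of integer vectors with entries bounded by `a` which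
generates `ℤ^m`: every `b` with entries bounded by `B` is a combination with bounded coefficients.
Proof: V spans `ℚ^m`, so there are `m` vectors of `V` whose matrix `P` (columns) has `D = det P ≠ 0`.
Write `b = ∑ x_v v` with integers `x_v`, `x_v = |D| q_v + r_v`, `0 ≤ r_v < |D|`. Then
`b - ∑ r_v v = |D| y`, with `y` integer and `|y_k| ≤ B + #V a` (divide by `|D| ≥ 1`), and
`D y = P (adj P y)`. The entries of `adj P` are determinants of matrices with entries bounded by
`max a 1`, so bounded by `m! (max a 1)^m` (`Matrix.det_le`); so the coefficients of the basis vectors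
change by at most `m * m! (max a 1)^m (B + #V a)`. -/
def S_LAT : Prop := ∀ (m a B : ℕ) (V : Finset (Fin m → ℤ)),
  (∀ v ∈ V, ∀ k, |v k| ≤ a) →
  AddSubgroup.closure (V : Set (Fin m → ℤ)) = ⊤ →
  ∀ b : Fin m → ℤ, (∀ k, |b k| ≤ B) →
  ∃ x : (Fin m → ℤ) → ℤ,
    (∀ v ∈ V, |x v| ≤ (m.factorial * (a + 1) ^ m * (1 + m * (B + V.card * a)) : ℕ)) ∧
    ∑ v ∈ V, x v • v = b

/-- the 0/1 matrix of colour `k` (natural entries) -/
noncomputable def col {n m : ℕ} (E : Fin m → Fin n → Fin n → Prop) (k : Fin m) :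
    Matrix (Fin n) (Fin n) ℕ := by
  classical exact fun i j => if E k i j then 1 else 0

/-- lazy walk matrix `I + ∑ A_k` -/
noncomputable def lazy {n m : ℕ} (E : Fin m → Fin n → Fin n → Prop) : Matrix (Fin n) (Fin n) ℕ :=
  1 + ∑ k, col E k

/-- PART HZ_TR (15 min). There is a multiset `R` of colour vectors (those of the lazy closed walks
of length `n`) such that every member is the colour vector of a closed walk of length at most `n`,
every closed walk of length at most `n` has its colour vector in `R`, and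
`n * tr (A_k (I+S)^(n-1)) = ∑_{c ∈ R} c k`.
Proof: define `R t u v : Multiset (Fin m → ℕ)` by recursion on `t`: `R 0 u v = if u = v then {0}
else 0`, `R (t+1) u v = R t u v + ∑ k, ∑ x, if E k u x then (R t x v).map (· + Pi.single k 1)
else 0`. By induction: `card (R t u v) = (lazy^t) u v`; `((R t u v).map (· k)).sum =
(∑ s ∈ range t, lazy^s * col k * lazy^(t-1-s)) u v`; members are walks with `∑ c ≤ t`; a walk with
`∑ c ≤ t` is a member. Take `R = ∑ v, R n v v`; the trace is cyclic (`Matrix.trace_mul_comm`). -/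
def S_TR : Prop := ∀ (n m : ℕ) (E : Fin m → Fin n → Fin n → Prop),
  ∃ R : Multiset (Fin m → ℕ),
    (∀ c ∈ R, (∃ v V, Wk E v v c V) ∧ ∑ k, c k ≤ n) ∧
    (∀ v c V, Wk E v v c V → ∑ k, c k ≤ n → c ∈ R) ∧
    ∀ k, n * Matrix.trace (col E k * lazy E ^ (n - 1)) = (R.map (fun c => c k)).sum

/-- PART HZ_DEC (15 min). Every walk shortens to a walk of length `< n`, the difference being a sum
of closed walks of length at most `n`. Proof: inductive simple walks
`Sp.cons : E k i j → Sp j l c V → i ∉ V → Sp i l (c + single k 1) (insert i V)`, for which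
`∑ c + 1 = V.card ≤ n`; splitting of a simple walk at a visited vertex; induction on the walk. -/
def S_DEC : Prop := ∀ (n m : ℕ) (E : Fin m → Fin n → Fin n → Prop) (i j : Fin n)
  (c : Fin m → ℕ) (V : Finset (Fin n)), Wk E i j c V →
  ∃ c' V' s, Wk E i j c' V' ∧ ∑ k, c' k < n ∧
    s ∈ AddSubmonoid.closure {d : Fin m → ℕ | (∃ v U, Wk E v v d U) ∧ ∑ k, d k ≤ n} ∧ c = c' + s

/-- the multiplier -/
def mul (n m : ℕ) : ℕ := 2 ^ ((n + m + 2) ^ 3)

/-- PART HZ_NUM (10 min). -/
def S_NUM : Prop := ∀ n m : ℕ, 1 ≤ n → 1 ≤ m →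
  m.factorial * (n + 1) ^ m * (1 + m * ((n + 1) * n + (n + 1) ^ m * n)) ≤ mul n m

/-- the explicit colour vector -/
noncomputable def alpha {n m : ℕ} (E : Fin m → Fin n → Fin n → Prop) (k : Fin m) : ℕ :=
  mul n m * (n * Matrix.trace (col E k * lazy E ^ (n - 1)))

/-- assembled combinatorial theorem (done by helper158 from the parts) -/
def S_MAIN : Prop := ∀ (n m : ℕ) (A : Fin m → Matrix (Fin n) (Fin n) ℚ), 
  (∀ k i j, 0 ≤ A k i j) →
  (∃ α : Fin m → ℕ, 1 ≤ ∑ k, α k ∧ ∀ i j, 0 < hur A α i j) →
  1 ≤ n → (1 ≤ ∑ k, alpha (fun k i j => 0 < A k i j) k) ∧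
    ∀ i j, 0 < hur A (alpha (fun k i j => 0 < A k i j)) i j

end Pool.Agent.X158.HZ
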